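import Pool.Agent.BBZ.Conds
import Pool.Agent.BBZ.Uniq
import Pool.Agent.BBZ.Thm

/-!
# Existence and uniqueness for the varieties of the five kinds
-/

set_option autoImplicit false

noncomputable section

namespace Pool.Agent.BBZ

open Pool.Agent.BBM

variable {S₁ S₂ S₃ S₄ S₅ : Type} [Fintype S₁] [Fintype S₂] [Fintype S₃] [Fintype S₄] [Fintype S₅]
  [DecidableEq S₁] [DecidableEq S₂] [DecidableEq S₃] [DecidableEq S₄] [DecidableEq S₅] {Y : Fly S₁ S₂ S₃ S₄ S₅}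

theorem conds (hS : HYG.SwapAll ℂ) (hY : Y.Ok) : Y.Conds (Fil Y.rat Y.n) := by
  obtain ⟨h1, h2, -, -, h3, h4, h5⟩ := conditions hS hY
  exact ⟨fun m ν => (h1 m ν).1, fun m ν => (h1 m ν).2, h2, h3, h4, h5⟩

theorem conds_uniq (hY : Y.Ok)
    (Φ : (m : S₁ ⊕ S₂ ⊕ S₃ ⊕ S₄ ⊕ S₅ → ℕ) → ℕ → Submodule ℚ (Pts Y.P m →₀ ℚ)) (h : Y.Conds Φ)
    (m : S₁ ⊕ S₂ ⊕ S₃ ⊕ S₄ ⊕ S₅ → ℕ) (ν : ℕ) : Φ m ν = Fil Y.rat Y.n m ν := by
  have hne : ∀ s, Nonempty (Y.P s) := P_nonempty hY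
  exact uniq (n := Y.n) (om := Y.om) (act := Y.act) (e := Y.id) act_id
    (fun m m' f => rat_map f) h.ge h.anti h.zero (fun m => (h.top m).le) h.map
    (fun m m' ν γ hγ => h.grad m m' ν γ hγ) m ν

end Pool.Agent.BBZ
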